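import Pool.Agent.V11290.EF.Main

/-!
# Every countably infinite group is an exact product of two infinite subsets

We prove that every countably infinite group `G` has an exact factorization `G = AB` with `A` and `B`
infinite, a positive answer to the question for all groups, topologizable or not.

The proof.  (1) If `H` is an infinite subgroup of infinite index, take `A = H` and a transversal `B`.  (2) A
factorization of a subgroup `N` gives a factorization of `G`, with a transversal of `N` multiplied to `A`.
(3) A greedy algorithm: given finite `A`, `B` with direct product and `g` outside `AB`, add `x` to `A` and
`x⁻¹g` to `B`.  This is possible for all `x` outside a finite set and outside the sets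
`{x : (xc)² = h}` for finitely many pairs `(c, h)`, `h ≠ 1`.  (4) In an infinite abelian group these sets
do not matter if there are infinitely many squares, and otherwise one works in the infinite group of the
elements of order at most two, where they are empty.  (5) Let all infinite subgroups of `G` have finite
index and all abelian subgroups be finite.  The elements with infinite centralizers form a subgroup `F`,
which is finite, for otherwise a maximal abelian subgroup of `F` would be infinite.  All elements
outside `F` have finite centralizers, also modulo `F`, and so `{x : (xc)² = h}` is finite for `h` outside
`F`.  If all `x` outside a finite set had `(xc)² ∈ F` for some `c` of a finite set `C`, then choose `s`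
outside `C F C⁻¹`: for all but finitely many `x` the elements `u = xc` and `xsc' = uw`, `w = c⁻¹sc'`,
would be involutions modulo `F`, so that `u` inverts `w` modulo `F`, which is possible for finitely many `u`
only, a contradiction.
-/

set_option autoImplicit false

namespace Pool.Agent.Results.MP_b3a091_al.EveryCountableGroup

/-- `G = AB` is an exact factorization: for every `g` there is exactly one pair `(a, b) ∈ A × B` with
`ab = g`. -/
def IsExactFactorization {G : Type*} [Group G] (A B : Set G) : Prop :=
  ∀ g : G, ∃! p : G × G, p.1 ∈ A ∧ p.2 ∈ B ∧ p.1 * p.2 = g

/-- **Every countably infinite group admits an exact factorization into two infinite subsets.** -/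
theorem result (G : Type*) [Group G] [Countable G] [Infinite G] :
    ∃ A B : Set G, A.Infinite ∧ B.Infinite ∧ IsExactFactorization A B :=
  Pool.Agent.V11290.EF.main G

end Pool.Agent.Results.MP_b3a091_al.EveryCountableGroup
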